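import Pool.Agent.MDG.Stmts

/-!
helper70, squad MDG (MP_3faef8_co), row BRG: a set is not left by exactly one non bridge.
-/

set_option autoImplicit false

open Finset Pool.Agent.HEC

namespace Pool.Agent.MDG.H70

lemma sgn {a b : Bool} (h : a ≠ b) : sg b = -sg a := by
  cases a <;> cases b <;> simp_all [sg]

open Classical in
lemma cnt1 {α : Type} [Fintype α] (p : α → Prop) : cnt p = 1 ↔ ∃ a, ∀ x, p x ↔ x = a := by
  unfold cnt
  rw [Finset.card_eq_one]
  refine exists_congr fun a => ?_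
  rw [Finset.ext_iff]
  refine forall_congr' fun x => ?_
  rw [Finset.mem_filter, Finset.mem_singleton]
  exact ⟨fun h => ⟨fun h' => h.1 ⟨Finset.mem_univ x, h'⟩, fun h' => (h.2 h').2⟩,
    fun h => ⟨fun h' => h.1 h'.2, fun h' => ⟨Finset.mem_univ x, h.2 h'⟩⟩⟩

open Classical in
lemma cnt0 {α : Type} [Fintype α] (p : α → Prop) (h : cnt p = 0) : ∀ x, ¬ p x := by
  unfold cnt at h
  rw [Finset.card_eq_zero, Finset.filter_eq_empty_iff] at h
  exact fun x => h (Finset.mem_univ x)

lemma gen {V : Type} [Fintype V] [DecidableEq V] (H : SimpleGraph V) (t : V → Bool)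
    (x : V → V → ℝ) (W : Finset V) (ht : ∀ a b, H.Adj a b → t a ≠ t b)
    (hs : ∀ a b, x a b = x b a) (h0 : ∀ a b, ¬ H.Adj a b → x a b = 0) :
    ∑ a ∈ W, (sg (t a) : ℝ) * bd x a = ∑ a ∈ W, ∑ b ∈ Wᶜ, (sg (t a) : ℝ) * x a b := by
  have e1 : ∀ a, (sg (t a) : ℝ) * bd x a = ∑ b ∈ W, (sg (t a) : ℝ) * x a b
      + ∑ b ∈ Wᶜ, (sg (t a) : ℝ) * x a b := by
    intro a
    unfold bd
    rw [← Finset.sum_add_sum_compl W (fun b => x a b), mul_add, Finset.mul_sum, Finset.mul_sum]
  have hS : ∑ a ∈ W, ∑ b ∈ W, (sg (t a) : ℝ) * x a b = 0 := by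
    have h1 : ∑ a ∈ W, ∑ b ∈ W, (sg (t a) : ℝ) * x a b
        = -∑ a ∈ W, ∑ b ∈ W, (sg (t a) : ℝ) * x a b := by
      conv_lhs => rw [Finset.sum_comm]
      rw [← Finset.sum_neg_distrib]
      refine Finset.sum_congr rfl fun a _ => ?_
      rw [← Finset.sum_neg_distrib]
      refine Finset.sum_congr rfl fun b _ => ?_
      by_cases hab : H.Adj a b
      · rw [sgn (ht a b hab), hs b a]
        push_cast
        ring
      · rw [h0 a b hab, h0 b a fun h => hab h.symm]
        ring
    linarith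
  rw [Finset.sum_congr rfl fun a _ => e1 a, Finset.sum_add_distrib, hS, zero_add]

open Classical in
theorem brg (hflo : FloStmt) (hbry : BryStmt) : BrgStmt := by
  intro V _ H t W ht hcon
  obtain ⟨⟨u0, v0⟩, hmem⟩ := (cnt1 _).1 hcon
  obtain ⟨hu, hv, hadj, hbr⟩ := (hmem (u0, v0)).2 rfl
  have hne : u0 ≠ v0 := hadj.ne
  have htn : t u0 ≠ t v0 := ht _ _ hadj
  let D : V → V → Prop := fun a b => (a = u0 ∧ b = v0) ∨ (a = v0 ∧ b = u0)
  have hD : ∀ a b, D a b → D b a := fun a b h => h.elim (fun h => Or.inr ⟨h.2, h.1⟩)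
    (fun h => Or.inl ⟨h.2, h.1⟩)
  let E : SimpleGraph V :=
    { Adj := fun a b => H.Adj a b ∧ ¬ D a b
      symm := ⟨fun a b h => ⟨h.1.symm, fun h' => h.2 (hD _ _ h')⟩⟩
      loopless := ⟨fun a h => H.loopless.irrefl a h.1⟩ }
  let b : V → ℤ := fun v => if v = u0 ∨ v = v0 then -1 else 0
  have hEt : ∀ u v, E.Adj u v → t u ≠ t v := fun u v h => ht u v h.1
  -- sum of b over a set
  have hb : ∀ W' : Finset V, ∑ v ∈ W', sg (t v) * b v =
      (if u0 ∈ W' then -sg (t u0) else 0) + (if v0 ∈ W' then -sg (t v0) else 0) := by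
    intro W'
    have e : ∀ v, sg (t v) * b v = (if v = u0 then -sg (t u0) else 0)
        + (if v = v0 then -sg (t v0) else 0) := by
      intro v
      by_cases h1 : v = u0
      · subst h1
        simp [b, hne]
      · by_cases h2 : v = v0
        · subst h2
          simp [b, h1]
        · simp [b, h1, h2]
    rw [Finset.sum_congr rfl fun v _ => e v, Finset.sum_add_distrib, Finset.sum_ite_eq',
      Finset.sum_ite_eq']
  -- a set which separates u0 and v0
  have hsep : ∀ W' : Finset V, ((u0 ∈ W' ∧ v0 ∉ W') ∨ (u0 ∉ W' ∧ v0 ∈ W')) → 1 ≤ cut E W' := by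
    intro W' hW
    by_contra hc
    have hz : cut E W' = 0 := by omega
    have hz' := cnt0 _ hz
    have hall : ∀ p : V × V, p.1 ∈ W' → p.2 ∉ W' → H.Adj p.1 p.2 → D p.1 p.2 := by
      intro p h1 h2 h3
      by_contra hd
      exact hz' p ⟨h1, h2, h3, hd⟩
    apply hbr
    refine ⟨hadj, W', ?_, hW⟩
    refine (cnt1 _).2 ?_
    rcases hW with ⟨h1, h2⟩ | ⟨h1, h2⟩
    · refine ⟨(u0, v0), fun p => ?_⟩
      constructor
      · rintro ⟨a1, a2, a3⟩
        rcases hall p a1 a2 a3 with ⟨c1, c2⟩ | ⟨c1, c2⟩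
        · exact Prod.ext c1 c2
        · exact absurd (c1 ▸ a1) h2
      · rintro rfl
        exact ⟨h1, h2, hadj⟩
    · refine ⟨(v0, u0), fun p => ?_⟩
      constructor
      · rintro ⟨a1, a2, a3⟩
        rcases hall p a1 a2 a3 with ⟨c1, c2⟩ | ⟨c1, c2⟩
        · exact absurd (c1 ▸ a1) h1
        · exact Prod.ext c1 c2
      · rintro rfl
        exact ⟨h2, h1, hadj.symm⟩
  have hsgabs : ∀ c : Bool, |sg c| = 1 := by
    intro c
    cases c <;> simp [sg]
  have hflow : ∀ W' : Finset V, |∑ v ∈ W', sg (t v) * b v| ≤ (cut E W' : ℤ) := by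
    intro W'
    rw [hb W']
    by_cases h1 : u0 ∈ W'
    · by_cases h2 : v0 ∈ W'
      · rw [if_pos h1, if_pos h2, sgn htn]
        simp
      · rw [if_pos h1, if_neg h2, add_zero, abs_neg, hsgabs]
        exact_mod_cast hsep W' (Or.inl ⟨h1, h2⟩)
    · by_cases h2 : v0 ∈ W'
      · rw [if_neg h1, if_pos h2, zero_add, abs_neg, hsgabs]
        exact_mod_cast hsep W' (Or.inr ⟨h1, h2⟩)
      · rw [if_neg h1, if_neg h2]
        simp
  obtain ⟨x, hx, hbd⟩ := hflo V E t b hEt hflow
  let y : V → V → ℝ := fun a c => (x a c : ℝ) + (if D a c then 1 else 0)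
  have hys : ∀ a c, y a c = y c a := by
    intro a c
    show (x a c : ℝ) + (if D a c then 1 else 0) = (x c a : ℝ) + (if D c a then 1 else 0)
    rw [hx.symm a c]
    by_cases h : D a c
    · rw [if_pos h, if_pos (hD _ _ h)]
    · rw [if_neg h, if_neg fun h' => h (hD _ _ h')]
  have hy0 : ∀ a c, ¬ H.Adj a c → y a c = 0 := by
    intro a c h
    show (x a c : ℝ) + (if D a c then 1 else 0) = 0
    have h1 : x a c = 0 := hx.supp a c fun h' => h h'.1
    have h2 : ¬ D a c := by
      rintro (⟨c1, c2⟩ | ⟨c1, c2⟩)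
      · exact h (by rw [c1, c2]; exact hadj)
      · exact h (by rw [c1, c2]; exact hadj.symm)
    rw [h1, if_neg h2]
    simp
  have hybd : ∀ v, bd y v = 0 := by
    intro v
    have h1 : bd y v = ((bd x v : ℤ) : ℝ) + ∑ w, (if D v w then (1 : ℝ) else 0) := by
      unfold bd
      rw [Int.cast_sum, ← Finset.sum_add_distrib]
    have h2 : ∑ w, (if D v w then (1 : ℝ) else 0) = if v = u0 ∨ v = v0 then 1 else 0 := by
      by_cases c1 : v = u0
      · subst c1
        rw [if_pos (Or.inl rfl)]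
        rw [Finset.sum_eq_single v0]
        · rw [if_pos (Or.inl ⟨rfl, rfl⟩)]
        · intro w _ hw
          rw [if_neg]
          rintro (⟨-, d⟩ | ⟨d, -⟩)
          · exact hw d
          · exact hne d
        · intro h; exact absurd (Finset.mem_univ _) h
      · by_cases c2 : v = v0
        · subst c2
          rw [if_pos (Or.inr rfl)]
          rw [Finset.sum_eq_single u0]
          · rw [if_pos (Or.inr ⟨rfl, rfl⟩)]
          · intro w _ hw
            rw [if_neg]
            rintro (⟨d, -⟩ | ⟨-, d⟩)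
            · exact c1 d
            · exact hw d
          · intro h; exact absurd (Finset.mem_univ _) h
        · rw [if_neg (by rintro (d | d); exacts [c1 d, c2 d])]
          refine Finset.sum_eq_zero fun w _ => ?_
          rw [if_neg]
          rintro (⟨d, -⟩ | ⟨d, -⟩)
          · exact c1 d
          · exact c2 d
    rw [h1, hbd, h2]
    show (((if v = u0 ∨ v = v0 then -1 else 0 : ℤ)) : ℝ) + _ = 0
    by_cases c : v = u0 ∨ v = v0
    · rw [if_pos c, if_pos c]; norm_num
    · rw [if_neg c, if_neg c]; norm_num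
  have hsg0 : ∀ c : Bool, ((sg c : ℤ) : ℝ) ≠ 0 := by
    intro c
    cases c <;> simp [sg]
  have hbr0 : ∀ a c, Bri H a c → y a c = 0 := by
    rintro a c ⟨hac, W1, hc1, h | h⟩
    · have := hbry V H t y W1 a c ht hys hy0 hc1 h.1 h.2 hac
      rw [Finset.sum_eq_zero fun z _ => by rw [hybd z, mul_zero]] at this
      rcases mul_eq_zero.1 this.symm with h' | h'
      · exact absurd h' (hsg0 _)
      · exact h'
    · have := hbry V H t y W1 c a ht hys hy0 hc1 h.2 h.1 hac.symm
      rw [Finset.sum_eq_zero fun z _ => by rw [hybd z, mul_zero]] at this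
      rcases mul_eq_zero.1 this.symm with h' | h'
      · exact absurd h' (hsg0 _)
      · rw [hys]; exact h'
  have hfin := gen H t y W ht hys hy0
  rw [Finset.sum_eq_zero fun z _ => by rw [hybd z, mul_zero]] at hfin
  have hval : ∑ a ∈ W, ∑ c ∈ Wᶜ, (sg (t a) : ℝ) * y a c = (sg (t u0) : ℝ) := by
    rw [Finset.sum_eq_single_of_mem u0 hu, Finset.sum_eq_single_of_mem v0
      (Finset.mem_compl.2 hv)]
    · have h1 : x u0 v0 = 0 := hx.supp _ _ fun h => h.2 (Or.inl ⟨rfl, rfl⟩)
      have h2 : y u0 v0 = 1 := by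
        show (x u0 v0 : ℝ) + (if D u0 v0 then 1 else 0) = 1
        rw [h1, if_pos (Or.inl ⟨rfl, rfl⟩)]
        simp
      rw [h2, mul_one]
    · intro c hc hcv
      have hc' : c ∉ W := Finset.mem_compl.1 hc
      have : y u0 c = 0 := by
        by_cases h : H.Adj u0 c
        · by_cases hB : Bri H u0 c
          · exact hbr0 _ _ hB
          · have := (hmem (u0, c)).1 ⟨hu, hc', h, hB⟩
            exact absurd (Prod.ext_iff.1 this).2 hcv
        · exact hy0 _ _ h
      rw [this, mul_zero]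
    · intro a ha hau
      refine Finset.sum_eq_zero fun c hc => ?_
      have hc' : c ∉ W := Finset.mem_compl.1 hc
      have : y a c = 0 := by
        by_cases h : H.Adj a c
        · by_cases hB : Bri H a c
          · exact hbr0 _ _ hB
          · have := (hmem (a, c)).1 ⟨ha, hc', h, hB⟩
            exact absurd (Prod.ext_iff.1 this).1 hau
        · exact hy0 _ _ h
      rw [this, mul_zero]
  rw [hval] at hfin
  exact hsg0 _ hfin.symm

end Pool.Agent.MDG.H70
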